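import Mathlib
import Pool.Agent.H57.Wei

set_option autoImplicit false

open Pool.Agent.H57.Wei

namespace Pool.Agent.Results.MP_d0967d_lc.Embed

/-- The Weihrauch degrees order-embed into the power set of the reals under inclusion. -/
theorem result : ∃ I : Problem → Set ℝ, ∀ f g : Problem, WLe f g ↔ I f ⊆ I g :=
  main

end Pool.Agent.Results.MP_d0967d_lc.Embed
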